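import Mathlib

/-!
# MP_463e5e_co: every Hamiltonian graph is stackable

If a finite graph has a Hamiltonian path that starts at `r` then it is `r`-stackable.
-/

namespace Pool.Agent.Results.MP_463e5e_co.HamiltonianStackable

open Relation

/-- A move `u ↦ v` of the cup stacking game: `C u ≥ 1`, `C v ≥ 1`, `dist (u, v) = C u`, and all
cups of `u` are put on `v`. -/
def Move {V : Type*} (G : SimpleGraph V) (C C' : V → ℕ) : Prop :=
  ∃ u v, 1 ≤ C u ∧ 1 ≤ C v ∧ G.dist u v = C u ∧
    C' u = 0 ∧ C' v = C u + C v ∧ ∀ w, w ≠ u → w ≠ v → C' w = C w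

/-- `G` is `r`-stackable: some finite sequence of moves from the all-ones configuration puts all
cups on `r`. -/
def StackableAt {V : Type*} [Fintype V] [DecidableEq V] (G : SimpleGraph V) (r : V) : Prop :=
  ReflTransGen (Move G) (fun _ => 1) (fun v => if v = r then Fintype.card V else 0)

theorem path_stack {V : Type*} (G : SimpleGraph V) :
    ∀ (n : ℕ) (p : ℕ → V), (∀ i < n, G.Adj (p i) (p (i + 1))) →
      (∀ i j, i ≤ n → j ≤ n → p i = p j → i = j) →
      ∀ C : V → ℕ, 1 ≤ C (p 0) → (∀ i, 1 ≤ i → i ≤ n → C (p i) = 1) →
      ∀ C' : V → ℕ, C' (p 0) = C (p 0) + n → (∀ i, 1 ≤ i → i ≤ n → C' (p i) = 0) →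
        (∀ v, (∀ i ≤ n, v ≠ p i) → C' v = C v) → ReflTransGen (Move G) C C' := by
  classical
  intro n
  induction n using Nat.strong_induction_on with
  | _ n ih =>
    intro p hadj hinj C hC0 hC C' h0 h1 h2
    rcases Nat.eq_zero_or_pos n with hn | hn
    · subst hn
      have : C' = C := by
        funext v
        by_cases hv : v = p 0
        · subst hv; simpa using h0
        · exact h2 v fun i hi => by
            have : i = 0 := by omega
            subst this; exact hv
      rw [this]
    -- the distance between the two ends
    have hreach : ∀ j ≤ n, ∃ w : G.Walk (p 0) (p j), w.length = j := by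
      intro j
      induction j with
      | zero => intro _; exact ⟨SimpleGraph.Walk.nil, rfl⟩
      | succ j ihj =>
        intro hj
        obtain ⟨w, hw⟩ := ihj (by omega)
        exact ⟨w.concat (hadj j (by omega)), by simp [hw]⟩
    obtain ⟨w, hw⟩ := hreach n le_rfl
    have hne : p n ≠ p 0 := fun h => by
      have := hinj n 0 le_rfl (by omega) h
      omega
    set e := G.dist (p n) (p 0) with he
    have he1 : 1 ≤ e := by
      have : 0 < G.dist (p n) (p 0) :=
        SimpleGraph.Reachable.pos_dist_of_ne ⟨w.reverse⟩ hne
      omega
    have hen : e ≤ n := by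
      have : G.dist (p n) (p 0) ≤ w.reverse.length := SimpleGraph.dist_le _
      rw [SimpleGraph.Walk.length_reverse, hw] at this
      omega
    -- first stage
    let C1 : V → ℕ := fun v => if v = p n then e else
      if (∃ i, 1 ≤ i ∧ i ≤ e - 1 ∧ v = p (n - i)) then 0 else C v
    have hC1p : ∀ i, i + e ≤ n → C1 (p i) = C (p i) := by
      intro i hi
      have a1 : p i ≠ p n := fun h => by
        have := hinj i n (by omega) le_rfl h
        omega
      have a2 : ¬ ∃ j, 1 ≤ j ∧ j ≤ e - 1 ∧ p i = p (n - j) := by
        rintro ⟨j, hj1, hj2, hj⟩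
        have := hinj i (n - j) (by omega) (by omega) hj
        omega
      simp only [C1, if_neg a1, if_neg a2]
    have s1 : ReflTransGen (Move G) C C1 := by
      refine ih (e - 1) (by omega) (fun i => p (n - i)) ?_ ?_ C ?_ ?_ C1 ?_ ?_ ?_
      · intro i hi
        have := (hadj (n - (i + 1)) (by omega)).symm
        have e1 : n - (i + 1) + 1 = n - i := by omega
        rwa [e1] at this
      · intro i j hi hj hij
        have := hinj (n - i) (n - j) (by omega) (by omega) hij
        omega
      · simp only [Nat.sub_zero]
        rw [hC n hn le_rfl]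
      · intro i hi1 hi2
        exact hC (n - i) (by omega) (by omega)
      · simp only [Nat.sub_zero, C1, if_true]
        rw [hC n hn le_rfl]
        omega
      · intro i hi1 hi2
        have a1 : p (n - i) ≠ p n := fun h => by
          have := hinj (n - i) n (by omega) le_rfl h
          omega
        have a2 : ∃ j, 1 ≤ j ∧ j ≤ e - 1 ∧ p (n - i) = p (n - j) := ⟨i, hi1, hi2, rfl⟩
        simp only [C1, if_neg a1, if_pos a2]
      · intro v hv
        have a1 : v ≠ p n := by simpa using hv 0 (by omega)
        have a2 : ¬ ∃ j, 1 ≤ j ∧ j ≤ e - 1 ∧ v = p (n - j) := by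
          rintro ⟨j, hj1, hj2, hj⟩
          exact hv j hj2 hj
        simp only [C1, if_neg a1, if_neg a2]
    -- second stage: move the pile of the last vertex
    let C2 : V → ℕ := fun v => if v = p n then 0 else if v = p 0 then e + C (p 0) else C1 v
    have s2 : Move G C1 C2 := by
      refine ⟨p n, p 0, ?_, ?_, ?_, ?_, ?_, ?_⟩
      · simp only [C1, if_true]; exact he1
      · rw [hC1p 0 (by omega)]; exact hC0
      · simp only [C1, if_true]; exact he.symm
      · simp only [C2, if_true]
      · simp only [C2, if_neg hne.symm, if_true]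
        rw [hC1p 0 (by omega)]
        simp only [C1, if_true]
      · intro w hw1 hw2
        simp only [C2, if_neg hw1, if_neg hw2]
    have hC2p : ∀ i, 1 ≤ i → i + e ≤ n → C2 (p i) = C (p i) := by
      intro i hi1 hi
      have a1 : p i ≠ p n := fun h => by
        have := hinj i n (by omega) le_rfl h
        omega
      have a2 : p i ≠ p 0 := fun h => by
        have := hinj i 0 (by omega) (by omega) h
        omega
      simp only [C2, if_neg a1, if_neg a2]
      exact hC1p i hi
    -- third stage
    have s3 : ReflTransGen (Move G) C2 C' := by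
      have b0 : C2 (p 0) = e + C (p 0) := by simp only [C2, if_neg hne.symm, if_true]
      refine ih (n - e) (by omega) p (fun i hi => hadj i (by omega))
        (fun i j hi hj h => hinj i j (by omega) (by omega) h) C2 ?_ ?_ C' ?_ ?_ ?_
      · rw [b0]; omega
      · intro i hi1 hi2
        rw [hC2p i hi1 (by omega)]
        exact hC i hi1 (by omega)
      · rw [h0, b0]; omega
      · intro i hi1 hi2
        exact h1 i hi1 (by omega)
      · intro v hv
        have a0 : v ≠ p 0 := hv 0 (by omega)
        by_cases a1 : v = p n
        · rw [a1, h1 n hn le_rfl]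
          simp only [C2, if_true]
        · simp only [C2, if_neg a1, if_neg a0, C1]
          by_cases a2 : ∃ j, 1 ≤ j ∧ j ≤ e - 1 ∧ v = p (n - j)
          · rw [if_pos a2]
            obtain ⟨j, hj1, hj2, hj⟩ := a2
            rw [hj]
            exact h1 (n - j) (by omega) (by omega)
          · rw [if_neg a2]
            refine h2 v fun i hi hvi => ?_
            by_cases hi' : i ≤ n - e
            · exact hv i hi' hvi
            · by_cases hi0 : i = n
              · rw [hi0] at hvi; exact a1 hvi
              · exact a2 ⟨n - i, by omega, by omega, by rw [hvi]; congr 1; omega⟩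
    exact s1.trans (ReflTransGen.head s2 s3)

theorem stackableAt_of_isHamiltonian {V : Type*} [Fintype V] [DecidableEq V] (G : SimpleGraph V)
    (r b : V) (p : G.Walk r b) (hp : p.IsHamiltonian) : StackableAt G r := by
  have hlen := hp.length_eq
  have hpos : 0 < Fintype.card V := Fintype.card_pos_iff.2 ⟨r⟩
  have hpath := hp.isPath
  refine path_stack G p.length p.getVert (fun i hi => p.adj_getVert_succ hi) ?_ _ (by simp)
    (fun i _ _ => rfl) _ ?_ ?_ ?_
  · intro i j hi hj h
    exact hpath.getVert_injOn hi hj h
  · simp only [SimpleGraph.Walk.getVert_zero, if_true]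
    omega
  · intro i hi1 hi2
    have : p.getVert i ≠ r := by
      intro h
      have h' : p.getVert i = p.getVert 0 := by simpa using h
      have := hpath.getVert_injOn (by simpa using hi2) (by simp) h'
      omega
    rw [if_neg this]
  · intro v hv
    exfalso
    obtain ⟨i, hi1, hi2⟩ := SimpleGraph.Walk.mem_support_iff_exists_getVert.1 (hp.mem_support v)
    exact hv i hi2 hi1.symm

/-- **Every finite graph with a Hamiltonian path that starts at `r` is `r`-stackable; so every
Hamiltonian graph is stackable.** -/
theorem result :
    (∀ (V : Type) [Fintype V] [DecidableEq V] (G : SimpleGraph V) (r b : V) (p : G.Walk r b),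
      p.IsHamiltonian → StackableAt G r) ∧
    (∀ (V : Type) [Fintype V] [DecidableEq V] (G : SimpleGraph V),
      G.IsHamiltonian → ∀ r, StackableAt G r) := by
  refine ⟨fun V _ _ G r b p hp => stackableAt_of_isHamiltonian G r b p hp, fun V _ _ G hG r => ?_⟩
  by_cases h1 : Fintype.card V = 1
  · obtain ⟨x, hx⟩ := Fintype.card_eq_one_iff.1 h1
    have : (fun v => if v = r then Fintype.card V else 0) = (fun _ : V => 1) := by
      funext v
      rw [if_pos ((hx v).trans (hx r).symm), h1]
    unfold StackableAt
    rw [this]
  · have : Nontrivial V := by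
      rw [← Fintype.one_lt_card_iff_nontrivial]
      have := Fintype.card_pos_iff.2 ⟨r⟩
      omega
    obtain ⟨p, hp⟩ := hG.exists_isHamiltonianCycle r
    -- the reverse of the tail is a Hamiltonian path from `r`
    exact stackableAt_of_isHamiltonian G r _ p.tail.reverse (by
      intro a
      rw [SimpleGraph.Walk.support_reverse, List.count_reverse]
      exact hp.isHamiltonian_tail a)

end Pool.Agent.Results.MP_463e5e_co.HamiltonianStackable
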